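import Pool.Agent.N305.CG.Stm2

/-!
# CG2/GAP0: an optimal dual measure has a gap at the origin and is exact on band limited functions
-/

set_option autoImplicit false

open MeasureTheory

namespace Pool.Agent.N464.CG

open Pool.Agent.TH478.CE Pool.Agent.R248.LPT Pool.Agent.N305.CG

theorem abs_rft_le (f : P → ℝ) (y : P) : |rft f y| ≤ ∫ x : P, |f x| :=
  (Complex.abs_re_le_norm _).trans (norm_ft_le f y)

/-- one sign -/
theorem one_sign (h : S_DW2) {μ : Measure P} (hμ : IsDual μ) {f k : P → ℝ} (hf : IsW f)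
    (hfi : Integrable f μ) (hk : IsRS k) {c s : ℝ}
    (hpos : ∀ y, 0 ≤ c * rft f y + s * rft k y) :
    c * rft f 0 + s * rft k 0 ≤ c * MM μ f + s * MM μ k := by
  have hki : Integrable k μ := hμ.integrable hk
  have hW : IsW (fun x => c * f x + s * k x) :=
    (hf.const_mul c).add ((isW_of_rs hk).const_mul s)
  have hr : ∀ y, rft (fun x => c * f x + s * k x) y = c * rft f y + s * rft k y := by
    intro y
    rw [rft_add' (hf.int.const_mul c) (hk.integrable.const_mul s), rft_const_mul, rft_const_mul]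
  have h1 := h μ hμ (fun x => c * f x + s * k x) hW (fun y => by rw [hr]; exact hpos y)
    ((hfi.const_mul c).add (hki.const_mul s))
  rw [← rft_zero, hr] at h1
  have h2 : MM μ (fun x => c * f x + s * k x) = c * MM μ f + s * MM μ k := by
    unfold MM
    rw [integral_add (hfi.const_mul c) (hki.const_mul s), integral_const_mul, integral_const_mul]
    ring
  rwa [h2] at h1

theorem s_GAP0 (h : S_DW2) : S_GAP0 := by
  intro α hα
  obtain ⟨f, hf, hval⟩ := exists_extremal hα
  have hpi := Real.pi_pos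
  have hf0 : 0 ≤ f 0 := by
    rw [← congrFun hf.w.rft_rft 0, rft_zero]
    exact integral_nonneg hf.rpos
  have hLP := LP_pos hα
  have hr0 : 0 < rft f 0 := by linarith
  have hf1 : f 0 < 1 := by
    have h1 : rft f 0 ≤ Real.pi / α := by
      rw [rft_zero, ← integral_gauss hα]
      exact integral_mono hf.w.int (isRS_gauss hα).integrable hf.le_all
    have h2 := LP_gt hα
    linarith
  have hcr : Continuous (rft f) := rft_cont hf.w.int
  obtain ⟨ρ₁, hρ₁, hb₁⟩ : ∃ ρ : ℝ, 0 < ρ ∧ ∀ y : P, ‖y‖ < ρ → rft f 0 / 2 < rft f y := by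
    have h1 : ∀ᶠ y in nhds (0 : P), rft f 0 / 2 < rft f y :=
      (hcr.tendsto 0).eventually (lt_mem_nhds (by linarith))
    obtain ⟨ρ, hρ, hb⟩ := Metric.eventually_nhds_iff.1 h1
    exact ⟨ρ, hρ, fun y hy => hb (by simpa using hy)⟩
  obtain ⟨ρ₂, hρ₂, hb₂⟩ : ∃ ρ : ℝ, 0 < ρ ∧ ∀ x : P, ‖x‖ < ρ →
      f x < Real.exp (-α * ‖x‖ ^ 2) := by
    have hc : Continuous (fun x : P => Real.exp (-α * ‖x‖ ^ 2) - f x) := by
      have : Continuous (fun x : P => Real.exp (-α * ‖x‖ ^ 2)) := by fun_prop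
      exact this.sub hf.w.cont
    have h1 : ∀ᶠ x in nhds (0 : P), 0 < Real.exp (-α * ‖x‖ ^ 2) - f x :=
      (hc.tendsto 0).eventually (lt_mem_nhds (by simp; linarith))
    obtain ⟨ρ, hρ, hb⟩ := Metric.eventually_nhds_iff.1 h1
    exact ⟨ρ, hρ, fun x hx => sub_pos.1 (hb (by simpa using hx))⟩
  refine ⟨min ρ₁ ρ₂ / 2, by positivity, fun μ hμo => ?_⟩
  obtain ⟨-, hμ, hv⟩ := hμo
  have hsl := wide_slack hμ hα hf (hv.trans hval.symm)
  have hgi : Integrable (fun x : P => Real.exp (-α * ‖x‖ ^ 2)) μ := hμ.integrable (isRS_gauss hα)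
  have hfi : Integrable f μ := hgi.congr (hsl.mono fun x hx => hx.symm)
  have hMf : MM μ f = rft f 0 := by
    unfold MM
    rw [integral_congr_ae hsl, hv]
    linarith
  have hm : 0 < min ρ₁ ρ₂ := lt_min hρ₁ hρ₂
  refine ⟨?_, fun k hk hk0 => ?_⟩
  · refine measure_mono_null ?_ (ae_iff.1 hsl)
    intro x hx
    have hx' : ‖x‖ ≤ min ρ₁ ρ₂ / 2 := by simpa using hx
    have := min_le_right ρ₁ ρ₂
    exact (hb₂ x (by linarith)).ne
  · set A : ℝ := ∫ x : P, |k x| with hA
    have hA0 : 0 ≤ A := integral_nonneg fun x => abs_nonneg _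
    set m : ℝ := rft f 0 / 2 with hmdef
    have hm0 : 0 < m := by positivity
    have hpos : ∀ y, |rft k y| ≤ (A / m + 1) * rft f y := by
      intro y
      by_cases hy : min ρ₁ ρ₂ / 2 ≤ ‖y‖
      · rw [hk0 y hy, abs_zero]
        exact mul_nonneg (by positivity) (hf.rpos y)
      · have h1 := min_le_left ρ₁ ρ₂
        have h2 := hb₁ y (by linarith [not_le.1 hy])
        calc |rft k y| ≤ A := abs_rft_le k y
          _ = (A / m) * m := by field_simp
          _ ≤ (A / m + 1) * rft f y := by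
            apply mul_le_mul (by linarith) h2.le hm0.le (by positivity)
    have e1 := one_sign h hμ hf.w hfi hk (c := A / m + 1) (s := 1)
      (fun y => by have := (abs_le.1 (hpos y)).1; linarith)
    have e2 := one_sign h hμ hf.w hfi hk (c := A / m + 1) (s := -1)
      (fun y => by have := (abs_le.1 (hpos y)).2; linarith)
    rw [hMf] at e1 e2
    linarith

end Pool.Agent.N464.CG
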